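import Mathlib

set_option autoImplicit false

/-!
# Definitions for the problem on preimages of operator ranges under Borel quasi-linear maps
-/

namespace Pool.Agent.Lib.MP_8983f3_an

open Set

/-- `M` is a linear subspace of `Y` with a norm `nM` under which `M` is a Banach space and
`‖y‖_Y ≤ nM y` for all `y ∈ M`. (Definiteness of `nM` follows from the last condition.) -/
structure IsBanachSubspace {Y : Type*} [NormedAddCommGroup Y] [NormedSpace ℝ Y]
    (M : Submodule ℝ Y) (nM : M → ℝ) : Prop where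
  add_le : ∀ x y : M, nM (x + y) ≤ nM x + nM y
  smul : ∀ (t : ℝ) (x : M), nM (t • x) = |t| * nM x
  norm_le : ∀ y : M, ‖(y : Y)‖ ≤ nM y
  complete : ∀ u : ℕ → M,
    (∀ ε : ℝ, 0 < ε → ∃ N : ℕ, ∀ m n : ℕ, N ≤ m → N ≤ n → nM (u m - u n) < ε) →
    ∃ y : M, ∀ ε : ℝ, 0 < ε → ∃ N : ℕ, ∀ n : ℕ, N ≤ n → nM (u n - y) < ε

/-- `φ` is linear modulo `M`. -/
def IsLinearModulo {X Y : Type*} [NormedAddCommGroup X] [NormedSpace ℝ X]
    [NormedAddCommGroup Y] [NormedSpace ℝ Y] (M : Submodule ℝ Y) (φ : X → Y) : Prop :=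
  ∀ (a b : ℝ) (x y : X), φ (a • x + b • y) - (a • φ x + b • φ y) ∈ M

/-- `τ` is a Polish vector space topology on the subspace `Z` of `X` whose Borel sets are exactly
the Borel subsets of `X` contained in `Z`. -/
structure IsPolishVectorTopology {X : Type*} [NormedAddCommGroup X] [NormedSpace ℝ X]
    (Z : Submodule ℝ X) (τ : TopologicalSpace Z) : Prop where
  polish : @PolishSpace Z τ
  continuous_add : @Continuous (Z × Z) Z (@instTopologicalSpaceProd Z Z τ τ) τ (fun p => p.1 + p.2)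
  continuous_smul : @Continuous (ℝ × Z) Z (@instTopologicalSpaceProd ℝ Z _ τ) τ
    (fun p => p.1 • p.2)
  borel_iff : ∀ S : Set Z, @MeasurableSet Z (@borel Z τ) S ↔
    @MeasurableSet X (borel X) ((fun z : Z => (z : X)) '' S)

/-- The topology `τ` on the real vector space `Z` is induced by a norm. -/
def IsNormable {Z : Type*} [AddCommGroup Z] [Module ℝ Z] (τ : TopologicalSpace Z) : Prop :=
  ∃ p : Z → ℝ, (∀ x, p x = 0 → x = 0) ∧ (∀ x y, p (x + y) ≤ p x + p y) ∧
    (∀ (t : ℝ) (x : Z), p (t • x) = |t| * p x) ∧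
    ∀ S : Set Z, @IsOpen Z τ S ↔ ∀ x ∈ S, ∃ ε : ℝ, 0 < ε ∧ ∀ y : Z, p (y - x) < ε → y ∈ S

/-- There are a Banach subspace `M` of `Y` and a Borel map `φ : X → Y`, linear modulo `M`, such that
the subspace `Z = φ⁻¹(M)` of `X` carries a Polish vector space topology whose Borel sets are the
Borel subsets of `X` contained in `Z`, and no such topology is normable. -/
def HasNonNormablePreimage (X Y : Type*) [NormedAddCommGroup X] [NormedSpace ℝ X]
    [NormedAddCommGroup Y] [NormedSpace ℝ Y] : Prop :=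
  ∃ (M : Submodule ℝ Y) (nM : M → ℝ) (φ : X → Y) (Z : Submodule ℝ X),
    IsBanachSubspace M nM ∧ @Measurable X Y (borel X) (borel Y) φ ∧ IsLinearModulo M φ ∧
    (∀ x : X, x ∈ Z ↔ φ x ∈ M) ∧
    (∃ τ : TopologicalSpace Z, IsPolishVectorTopology Z τ) ∧
    ∀ τ : TopologicalSpace Z, IsPolishVectorTopology Z τ → ¬ IsNormable τ

end Pool.Agent.Lib.MP_8983f3_an
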