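import Mathlib

set_option autoImplicit false

/-!
# Pettis' lemma and automatic continuity of Borel homomorphisms
-/

namespace Pool.Agent.Lib.MP_8983f3_an

open scoped Topology
open Set Filter

section Pettis

variable {G : Type*} [TopologicalSpace G] [AddCommGroup G] [IsTopologicalAddGroup G] [BaireSpace G]

/-- **Pettis' lemma**. -/
theorem pettis {A : Set G} (hA : BaireMeasurableSet A) (hm : ¬ IsMeagre A) :
    ∃ V ∈ 𝓝 (0 : G), ∀ g ∈ V, ∃ x ∈ A, ∃ y ∈ A, g = x - y := by
  obtain ⟨U, hU, hAU⟩ := hA.residualEq_isOpen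
  have hne : U.Nonempty := by
    by_contra hcon
    rw [not_nonempty_iff_eq_empty] at hcon
    subst hcon
    apply hm
    have h1 : Aᶜ ∈ residual G := by
      filter_upwards [hAU] with x hx
      have hx' : (x ∈ A) = (x ∈ (∅ : Set G)) := hx
      intro hxA
      rw [hx'] at hxA
      exact hxA
    exact h1
  obtain ⟨u, hu⟩ := hne
  refine ⟨{g | u + g ∈ U}, ?_, ?_⟩
  · refine (hU.preimage (continuous_const.add continuous_id)).mem_nhds ?_
    simpa using hu
  · intro g hg
    have htr : Tendsto (fun x : G => x - g) (residual G) (residual G) :=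
      tendsto_residual_of_isOpenMap (continuous_id.sub continuous_const)
        (Homeomorph.subRight g).isOpenMap
    have h1 : ∀ᶠ x in residual G, (x ∈ A ↔ x ∈ U) := by
      filter_upwards [hAU] with x hx
      exact iff_of_eq hx
    have h2 : ∀ᶠ x in residual G, (x - g ∈ A ↔ x - g ∈ U) := htr.eventually h1
    have h3 : {x | (x ∈ A ↔ x ∈ U) ∧ (x - g ∈ A ↔ x - g ∈ U)} ∈ residual G := h1.and h2
    have hd := dense_of_mem_residual h3
    have hopen : IsOpen {x | x ∈ U ∧ x - g ∈ U} :=
      hU.inter (hU.preimage (continuous_id.sub continuous_const))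
    obtain ⟨x, hx1, hx2⟩ := hd.inter_open_nonempty _ hopen
      ⟨u + g, hg, by simpa using hu⟩
    exact ⟨x, hx2.1.2 hx1.1, x - g, hx2.2.2 hx1.2, by abel⟩

/-- A Baire measurable homomorphism from a Baire group to a separable group is continuous. -/
theorem continuous_of_baireMeasurable {H : Type*} [TopologicalSpace H] [AddCommGroup H]
    [IsTopologicalAddGroup H] [TopologicalSpace.SeparableSpace H] (f : G →+ H)
    (hf : ∀ U : Set H, IsOpen U → BaireMeasurableSet (f ⁻¹' U)) : Continuous f := by
  refine continuous_of_continuousAt_zero f ?_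
  intro V hV
  rw [map_zero] at hV
  -- choose `W` open with `W - W ⊆ V`
  have hsub : Tendsto (fun p : H × H => p.1 - p.2) (𝓝 (0, 0)) (𝓝 0) := by
    have : Continuous (fun p : H × H => p.1 - p.2) := continuous_fst.sub continuous_snd
    simpa using this.tendsto (0, 0)
  have h1 := hsub hV
  rw [mem_map, nhds_prod_eq, mem_prod_iff] at h1
  obtain ⟨W1, hW1, W2, hW2, hW⟩ := h1
  obtain ⟨W, hWsub, hWo, hW0⟩ := mem_nhds_iff.1 (inter_mem hW1 hW2)
  have hWV : ∀ a ∈ W, ∀ b ∈ W, a - b ∈ V := fun a ha b hb =>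
    hW (mk_mem_prod (hWsub ha).1 (hWsub hb).2)
  -- countable cover
  obtain ⟨s, hsc, hsd⟩ := TopologicalSpace.exists_countable_dense H
  have hcov : ⋃ h ∈ s, f ⁻¹' {x | x - h ∈ W} = univ := by
    rw [eq_univ_iff_forall]
    intro g
    have hopen : IsOpen {h : H | f g - h ∈ W} := hWo.preimage (continuous_const.sub continuous_id)
    obtain ⟨h, hh1, hh2⟩ := hsd.inter_open_nonempty _ hopen ⟨f g, by simpa using hW0⟩
    exact mem_biUnion hh2 hh1
  have hex : ∃ h ∈ s, ¬ IsMeagre (f ⁻¹' {x | x - h ∈ W}) := by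
    by_contra hcon
    push Not at hcon
    have h2 : IsMeagre (⋃ h ∈ s, f ⁻¹' {x | x - h ∈ W}) := by
      have := hsc.to_subtype
      rw [biUnion_eq_iUnion]
      exact isMeagre_iUnion (fun h => hcon h.1 h.2)
    rw [hcov] at h2
    exact not_isMeagre_of_isOpen isOpen_univ ⟨0, mem_univ _⟩ h2
  obtain ⟨h, _, hh⟩ := hex
  have hopen : IsOpen {x : H | x - h ∈ W} := hWo.preimage (continuous_id.sub continuous_const)
  obtain ⟨V', hV', hV''⟩ := pettis (hf _ hopen) hh
  rw [mem_map]
  filter_upwards [hV'] with g hg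
  obtain ⟨x, hx, y, hy, rfl⟩ := hV'' g hg
  have : f (x - y) = (f x - h) - (f y - h) := by rw [map_sub]; abel
  show f (x - y) ∈ V
  rw [this]
  exact hWV _ hx _ hy

end Pettis

/-- Two group topologies on the same group, the first Baire, the second separable, such that
every open set of the second is Borel for the first: then the first is finer. -/
theorem le_of_borel {G : Type*} [AddCommGroup G] (τ₁ τ₂ : TopologicalSpace G)
    (h₁ : @IsTopologicalAddGroup G τ₁ _) (h₂ : @IsTopologicalAddGroup G τ₂ _)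
    (hb : @BaireSpace G τ₁) (hs : @TopologicalSpace.SeparableSpace G τ₂)
    (hB : ∀ U : Set G, IsOpen[τ₂] U → @MeasurableSet G (@borel G τ₁) U) : τ₁ ≤ τ₂ := by
  have : @Continuous G G τ₁ τ₂ (AddMonoidHom.id G) := by
    refine @continuous_of_baireMeasurable G τ₁ _ h₁ hb G τ₂ _ h₂ hs (AddMonoidHom.id G) ?_
    intro U hU
    let _ := τ₁
    let _ : MeasurableSpace G := @borel G τ₁
    have : BorelSpace G := ⟨rfl⟩
    exact (show MeasurableSet U from hB U hU).baireMeasurableSet
  exact continuous_id_iff_le.1 this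

end Pool.Agent.Lib.MP_8983f3_an
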