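import Pool.Agent.Lib.MP_8983f3_an.Defs
import Pool.Agent.Lib.MP_8983f3_an.Pettis

set_option autoImplicit false

namespace Pool.Agent.Lib.MP_8983f3_an

open scoped Topology
open Set Filter

/-- A quasi-linear map with values in an operator range, with continuous cocycle. -/
structure QData (X Y W : Type*) [NormedAddCommGroup X] [NormedSpace ℝ X]
    [NormedAddCommGroup Y] [NormedSpace ℝ Y] [NormedAddCommGroup W] [NormedSpace ℝ W] where
  /-- the quasi-linear map -/
  φ : X → Y
  /-- the embedding of the abstract space `W` onto `M` -/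
  ι : W →L[ℝ] Y
  /-- the cocycle -/
  c : X × X → W
  hφ : Continuous φ
  hc : Continuous c
  hι : Function.Injective ι
  hι1 : ∀ m, ‖ι m‖ ≤ ‖m‖
  hadd : ∀ x y, φ (x + y) = φ x + φ y + ι (c (x, y))
  hsmul : ∀ (t : ℝ) x, φ (t • x) = t • φ x

namespace QData

variable {X Y W : Type*} [NormedAddCommGroup X] [NormedSpace ℝ X]
    [NormedAddCommGroup Y] [NormedSpace ℝ Y] [NormedAddCommGroup W] [NormedSpace ℝ W]
variable (D : QData X Y W)

/-- `M`, the range of `ι`. -/
def M : Submodule ℝ Y := D.ι.toLinearMap.range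

theorem mem_M {y : Y} : y ∈ D.M ↔ ∃ m, D.ι m = y := Iff.rfl

/-- The subspace `Z = φ⁻¹(M)`. -/
def Z : Submodule ℝ X where
  carrier := {x | D.φ x ∈ D.M}
  add_mem' := by
    intro x y hx hy
    show D.φ (x + y) ∈ D.M
    rw [D.hadd]
    exact D.M.add_mem (D.M.add_mem hx hy) ⟨_, rfl⟩
  zero_mem' := by
    show D.φ 0 ∈ D.M
    have := D.hsmul 0 0
    rw [zero_smul, zero_smul] at this
    rw [this]; exact D.M.zero_mem
  smul_mem' := by
    intro t x hx
    show D.φ (t • x) ∈ D.M
    rw [D.hsmul]
    exact D.M.smul_mem t hx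

theorem mem_Z {x : X} : x ∈ D.Z ↔ D.φ x ∈ D.M := Iff.rfl

/-- `ι⁻¹` on `M`. -/
noncomputable def inv (y : D.M) : W := y.2.choose

theorem ι_inv (y : D.M) : D.ι (D.inv y) = y := y.2.choose_spec

theorem inv_eq {y : D.M} {m : W} (h : D.ι m = y) : D.inv y = m := D.hι (by rw [D.ι_inv, h])

theorem inv_add (x y : D.M) : D.inv (x + y) = D.inv x + D.inv y :=
  D.inv_eq (by rw [map_add, D.ι_inv, D.ι_inv]; rfl)

theorem inv_sub (x y : D.M) : D.inv (x - y) = D.inv x - D.inv y :=
  D.inv_eq (by rw [map_sub, D.ι_inv, D.ι_inv]; rfl)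

theorem inv_smul (t : ℝ) (x : D.M) : D.inv (t • x) = t • D.inv x :=
  D.inv_eq (by rw [map_smul, D.ι_inv]; rfl)

/-- the norm of `M` -/
noncomputable def nM (y : D.M) : ℝ := ‖D.inv y‖

theorem isBanachSubspace [CompleteSpace W] : IsBanachSubspace D.M D.nM where
  add_le x y := by
    unfold nM; rw [D.inv_add]; exact norm_add_le _ _
  smul t x := by
    unfold nM; rw [D.inv_smul, norm_smul, Real.norm_eq_abs]
  norm_le y := by
    unfold nM
    have := D.hι1 (D.inv y)
    rwa [D.ι_inv] at this
  complete u hu := by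
    have hc : CauchySeq (fun n => D.inv (u n)) := by
      rw [Metric.cauchySeq_iff]
      intro ε hε
      obtain ⟨N, hN⟩ := hu ε hε
      refine ⟨N, fun m hm n hn => ?_⟩
      rw [dist_eq_norm, ← D.inv_sub]
      exact hN m n hm hn
    obtain ⟨w, hw⟩ := cauchySeq_tendsto_of_complete hc
    refine ⟨⟨D.ι w, ⟨w, rfl⟩⟩, fun ε hε => ?_⟩
    obtain ⟨N, hN⟩ := Metric.tendsto_atTop.1 hw ε hε
    refine ⟨N, fun n hn => ?_⟩
    unfold nM
    rw [D.inv_sub, D.inv_eq (y := ⟨D.ι w, ⟨w, rfl⟩⟩) (m := w) rfl, ← dist_eq_norm]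
    exact hN n hn

theorem isLinearModulo : IsLinearModulo D.M D.φ := by
  intro a b x y
  rw [D.hadd, D.hsmul, D.hsmul, add_sub_cancel_left]
  exact ⟨_, rfl⟩

/-- the `M`-component of a point of `Z` -/
noncomputable def mz (z : D.Z) : W := D.inv ⟨D.φ z, z.2⟩

theorem ι_mz (z : D.Z) : D.ι (D.mz z) = D.φ z := D.ι_inv _

theorem mz_eq {z : D.Z} {m : W} (h : D.ι m = D.φ z) : D.mz z = m := D.hι (by rw [D.ι_mz, h])

theorem mz_add (x y : D.Z) : D.mz (x + y) = D.mz x + D.mz y + D.c (x, y) :=
  D.mz_eq (by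
    rw [map_add, map_add, D.ι_mz, D.ι_mz]
    exact (D.hadd _ _).symm)

theorem mz_smul (t : ℝ) (x : D.Z) : D.mz (t • x) = t • D.mz x :=
  D.mz_eq (by
    rw [map_smul, D.ι_mz]
    exact (D.hsmul _ _).symm)

/-- the embedding of `Z` in `X × W`. -/
noncomputable def J (z : D.Z) : X × W := (z, D.mz z)

theorem J_injective : Function.Injective D.J := by
  intro x y h
  exact Subtype.ext (congrArg Prod.fst h)

theorem range_J : range D.J = {p : X × W | D.φ p.1 = D.ι p.2} := by
  ext ⟨x, m⟩
  constructor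
  · rintro ⟨z, hz⟩
    have h1 : (z : X) = x := congrArg Prod.fst hz
    have h2 : D.mz z = m := congrArg Prod.snd hz
    show D.φ x = D.ι m
    rw [← h1, ← h2, D.ι_mz]
  · intro h
    have h' : D.φ x = D.ι m := h
    refine ⟨⟨x, by rw [mem_Z, h']; exact ⟨m, rfl⟩⟩, ?_⟩
    unfold J
    refine Prod.ext rfl ?_
    exact D.mz_eq h'.symm

theorem isClosed_range_J : IsClosed (range D.J) := by
  rw [D.range_J]
  exact isClosed_eq (D.hφ.comp continuous_fst) (D.ι.continuous.comp continuous_snd)

/-- the Polish topology -/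
@[instance_reducible] noncomputable def τ : TopologicalSpace D.Z := TopologicalSpace.induced D.J inferInstance

theorem isClosedEmbedding_J : @Topology.IsClosedEmbedding _ _ D.τ _ D.J :=
  @Topology.IsClosedEmbedding.mk _ _ D.τ _ _
    (@Topology.IsEmbedding.mk _ _ D.τ _ _ (@Topology.IsInducing.mk _ _ D.τ _ _ rfl) D.J_injective)
    D.isClosed_range_J

theorem continuous_J : @Continuous _ _ D.τ _ D.J := continuous_induced_dom

theorem polish [CompleteSpace X] [CompleteSpace W] [SecondCountableTopology X]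
    [SecondCountableTopology W] : @PolishSpace D.Z D.τ := by
  let _ := D.τ
  exact D.isClosedEmbedding_J.polishSpace

theorem continuous_val : @Continuous D.Z X D.τ _ (fun z => (z : X)) := by
  let _ := D.τ
  exact continuous_fst.comp D.continuous_J

theorem continuous_mz : @Continuous D.Z W D.τ _ D.mz := by
  let _ := D.τ
  exact continuous_snd.comp D.continuous_J

theorem continuous_add :
    @Continuous (D.Z × D.Z) D.Z (@instTopologicalSpaceProd _ _ D.τ D.τ) D.τ (fun p => p.1 + p.2) := by
  let _ := D.τ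
  refine continuous_induced_rng.2 ?_
  have h1 : Continuous (fun p : D.Z × D.Z => (p.1 : X)) := D.continuous_val.comp continuous_fst
  have h2 : Continuous (fun p : D.Z × D.Z => (p.2 : X)) := D.continuous_val.comp continuous_snd
  have h3 : Continuous (fun p : D.Z × D.Z => D.mz p.1) := D.continuous_mz.comp continuous_fst
  have h4 : Continuous (fun p : D.Z × D.Z => D.mz p.2) := D.continuous_mz.comp continuous_snd
  have h5 : Continuous (fun p : D.Z × D.Z => D.c (p.1, p.2)) := D.hc.comp (h1.prodMk h2)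
  have : (D.J ∘ fun p : D.Z × D.Z => p.1 + p.2) =
      fun p : D.Z × D.Z => ((p.1 : X) + (p.2 : X), D.mz p.1 + D.mz p.2 + D.c (p.1, p.2)) := by
    funext p
    exact Prod.ext rfl (D.mz_add _ _)
  rw [this]
  exact (h1.add h2).prodMk ((h3.add h4).add h5)

theorem continuous_smul :
    @Continuous (ℝ × D.Z) D.Z (@instTopologicalSpaceProd _ _ _ D.τ) D.τ (fun p => p.1 • p.2) := by
  let _ := D.τ
  refine continuous_induced_rng.2 ?_
  have h2 : Continuous (fun p : ℝ × D.Z => (p.2 : X)) := D.continuous_val.comp continuous_snd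
  have h4 : Continuous (fun p : ℝ × D.Z => D.mz p.2) := D.continuous_mz.comp continuous_snd
  have : (D.J ∘ fun p : ℝ × D.Z => p.1 • p.2) =
      fun p : ℝ × D.Z => (p.1 • (p.2 : X), p.1 • D.mz p.2) := by
    funext p
    exact Prod.ext rfl (D.mz_smul _ _)
  rw [this]
  exact (continuous_fst.smul h2).prodMk (continuous_fst.smul h4)

theorem isPolishVectorTopology [CompleteSpace X] [CompleteSpace W] [SecondCountableTopology X]
    [SecondCountableTopology W] : IsPolishVectorTopology D.Z D.τ where
  polish := D.polish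
  continuous_add := D.continuous_add
  continuous_smul := D.continuous_smul
  borel_iff S := by
    let _ := D.τ
    have := D.polish
    let _ : MeasurableSpace D.Z := @borel D.Z D.τ
    have : BorelSpace D.Z := ⟨rfl⟩
    let _ : MeasurableSpace X := borel X
    have : BorelSpace X := ⟨rfl⟩
    have hme : MeasurableEmbedding (fun z : D.Z => (z : X)) :=
      D.continuous_val.measurableEmbedding Subtype.val_injective
    exact hme.measurableSet_image.symm

/-- uniqueness of the topology -/
theorem topology_unique {Z' : Submodule ℝ X} {τ₁ τ₂ : TopologicalSpace Z'}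
    (h₁ : IsPolishVectorTopology Z' τ₁) (h₂ : IsPolishVectorTopology Z' τ₂) : τ₁ ≤ τ₂ := by
  have hg : ∀ τ : TopologicalSpace Z', IsPolishVectorTopology Z' τ → @IsTopologicalAddGroup Z' τ _ := by
    intro τ hτ
    let _ := τ
    have h1 : ContinuousAdd Z' := ⟨hτ.continuous_add⟩
    have h2 : ContinuousNeg Z' := by
      constructor
      have h3 : Continuous (fun z : Z' => ((-1 : ℝ), z)) := by fun_prop
      have := hτ.continuous_smul.comp h3
      convert this using 1
      funext z
      simp
    exact { }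
  refine le_of_borel τ₁ τ₂ (hg _ h₁) (hg _ h₂) ?_ ?_ ?_
  · have := h₁.polish
    infer_instance
  · have := h₂.polish
    infer_instance
  · intro U hU
    rw [h₁.borel_iff, ← h₂.borel_iff]
    exact MeasurableSpace.measurableSet_generateFrom hU

end QData

end Pool.Agent.Lib.MP_8983f3_an
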