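import Mathlib

set_option autoImplicit false

/-!
# Preliminaries on `ℓ_1`
-/

namespace Pool.Agent.Lib.MP_8983f3_an

open scoped Topology ENNReal
open Set Filter

/-- The Banach space `ℓ_1`. -/
abbrev L1 := lp (fun _ : ℕ => ℝ) 1

/-- Constructor for elements of `ℓ_1`. -/
noncomputable def mk1 (a : ℕ → ℝ) (h : Summable fun k => |a k|) : L1 :=
  ⟨a, memℓp_gen (by simpa using h)⟩

@[simp] theorem mk1_apply (a : ℕ → ℝ) (h : Summable fun k => |a k|) (k : ℕ) : mk1 a h k = a k := rfl

theorem summable_abs (x : L1) : Summable fun k => |x k| := by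
  have := (lp.memℓp x).summable (by norm_num)
  simpa using this

theorem norm_eq (x : L1) : ‖x‖ = ∑' k, |x k| := by
  rw [lp.norm_eq_tsum_rpow (by norm_num)]
  simp

theorem abs_coord_le_norm (x : L1) (k : ℕ) : |x k| ≤ ‖x‖ :=
  lp.norm_apply_le_norm (by norm_num : (1 : ℝ≥0∞) ≠ 0) x k

theorem sum_abs_le_norm (x : L1) (s : Finset ℕ) : ∑ k ∈ s, |x k| ≤ ‖x‖ := by
  rw [norm_eq]
  exact (summable_abs x).sum_le_tsum s (fun _ _ => abs_nonneg _)

theorem abs_sum_le_norm (x : L1) (s : Finset ℕ) : |∑ k ∈ s, x k| ≤ ‖x‖ :=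
  (Finset.abs_sum_le_sum_abs _ _).trans (sum_abs_le_norm x s)

theorem continuous_coord (k : ℕ) : Continuous fun x : L1 => x k :=
  (lp.lipschitzWith_one_eval 1 k).continuous

theorem continuous_lp_of_coord {T : Type*} [TopologicalSpace T] (F : T → L1) (g : T → ℝ)
    (hg : Continuous g) (hF : ∀ k, Continuous fun t => F t k)
    (hb : ∀ t k, |F t k| ≤ (1 / 2 : ℝ) ^ k * g t) : Continuous F := by
  have hsum : ∀ t, F t = ∑' k, lp.single 1 k (F t k) := fun t =>
    (lp.hasSum_single (by norm_num) (F t)).tsum_eq.symm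
  rw [continuous_iff_continuousAt]
  intro t
  set U : Set T := {s | g s < g t + 1} with hU
  have hUo : IsOpen U := isOpen_lt hg continuous_const
  have htU : t ∈ U := by show g t < g t + 1; linarith
  have hcont : ContinuousOn (fun s => ∑' k, lp.single (E := fun _ : ℕ => ℝ) 1 k (F s k)) U := by
    refine continuousOn_tsum (u := fun k => (1 / 2 : ℝ) ^ k * (g t + 1)) (fun k => ?_) ?_ ?_
    · have h1 : Continuous (lp.single (E := fun _ : ℕ => ℝ) 1 k) := (lp.isometry_single k).continuous
      exact (h1.comp (hF k)).continuousOn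
    · exact (summable_geometric_of_lt_one (by norm_num) (by norm_num)).mul_right _
    · intro k s hs
      rw [lp.norm_single (by norm_num), Real.norm_eq_abs]
      refine (hb s k).trans ?_
      have hs' : g s < g t + 1 := hs
      gcongr
  have h2 : ContinuousOn F U := by
    refine hcont.congr (fun s _ => hsum s)
  exact h2.continuousAt (hUo.mem_nhds htU)

/-- `ℓ_1` is separable. -/
instance : TopologicalSpace.SeparableSpace L1 := by
  have h1 : TopologicalSpace.IsSeparable
      ((Submodule.span ℝ (range fun k : ℕ => (lp.single 1 k (1 : ℝ) : L1)) : Submodule ℝ L1) :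
        Set L1) :=
    TopologicalSpace.IsSeparable.span (countable_range _).isSeparable
  have h2 : (univ : Set L1) ⊆ closure
      ((Submodule.span ℝ (range fun k : ℕ => (lp.single 1 k (1 : ℝ) : L1)) : Submodule ℝ L1) :
        Set L1) := by
    intro x _
    have hs := (lp.hasSum_single (by norm_num) x)
    refine mem_closure_of_tendsto hs (Eventually.of_forall fun s => ?_)
    refine Submodule.sum_mem _ (fun k _ => ?_)
    have : (lp.single 1 k (x k) : L1) = (x k) • (lp.single 1 k (1 : ℝ) : L1) := by
      rw [← lp.single_smul]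
      simp
    rw [this]
    exact Submodule.smul_mem _ _ (Submodule.subset_span ⟨k, rfl⟩)
  rw [← TopologicalSpace.isSeparable_univ_iff]
  exact h1.closure.mono h2

instance : SecondCountableTopology L1 := UniformSpace.secondCountable_of_separable L1

end Pool.Agent.Lib.MP_8983f3_an
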