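import Pool.Agent.Lib.MP_8983f3_an.Ribe

set_option autoImplicit false

namespace Pool.Agent.Lib.MP_8983f3_an

open scoped Topology ENNReal
open Set Filter

theorem ee_mem (i : ℕ) : ee i ∈ D.Z := by
  show ph (ee i) ∈ D.M
  rw [ph_ee]; exact D.M.zero_mem

/-- `ee i` as an element of `Z`. -/
noncomputable def ez (i : ℕ) : D.Z := ⟨ee i, ee_mem i⟩

theorem mz_ez (i : ℕ) : D.mz (ez i) = 0 := by
  refine D.mz_eq ?_
  rw [map_zero]
  exact (ph_ee i).symm

theorem norm_ez (i : ℕ) : ‖((ez i : D.Z) : L1)‖ = 1 := by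
  show ‖ee i‖ = 1
  unfold ee
  rw [lp.norm_single (by norm_num)]
  norm_num

/-- averages as elements of `Z` -/
noncomputable def az (N : ℕ) : D.Z := (N : ℝ)⁻¹ • ∑ i ∈ Finset.range N, ez i

theorem az_coe (N : ℕ) : ((az N : D.Z) : L1) = avg N := by
  unfold az avg ez
  simp

theorem mz_az (k : ℕ) : (D.mz (az (NN k))) k = - ((1 / 2 : ℝ) ^ k * Real.log (NN k)) := by
  have h1 : D.ι (D.mz (az (NN k))) = ph (az (NN k) : D.Z) := D.ι_mz _
  have h2 : wt k * (D.mz (az (NN k))) k = wt k * ((1 / 2 : ℝ) ^ k * Om (NN k) (avg (NN k))) := by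
    have h3 : (D.ι (D.mz (az (NN k)))) k = (ph (az (NN k) : D.Z)) k := by rw [h1]
    rw [az_coe] at h3
    exact h3
  have h4 := mul_left_cancel₀ (wt_pos k).ne' h2
  rw [h4, Om_avg (NN_pos k)]
  ring

theorem norm_mz_az (k : ℕ) : (2 : ℝ) ^ k * Real.log 2 ≤ ‖D.mz (az (NN k))‖ := by
  refine le_trans ?_ (abs_coord_le_norm (D.mz (az (NN k))) k)
  rw [mz_az, log_NN, abs_neg]
  refine le_trans (le_of_eq ?_) (le_abs_self _)
  rw [← mul_assoc, ← mul_pow]
  norm_num

theorem not_normable_tau : ¬ IsNormable D.τ := by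
  rintro ⟨p, -, hadd, hsmul, htop⟩
  have hp0 : p 0 = 0 := by
    have := hsmul 0 0
    rw [zero_smul, abs_zero, zero_mul] at this
    exact this
  have hneg : ∀ x, p (-x) = p x := by
    intro x
    have := hsmul (-1) x
    simpa using this
  have hpnn : ∀ x, 0 ≤ p x := by
    intro x
    have := hadd x (-x)
    rw [add_neg_cancel, hp0, hneg] at this
    linarith
  -- the open unit `p`-ball is open
  have hball : @IsOpen D.Z D.τ {z | p z < 1} := by
    rw [htop]
    intro x hx
    refine ⟨1 - p x, by have : p x < 1 := hx; linarith, fun y hy => ?_⟩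
    show p y < 1
    have h1 := hadd (y - x) x
    rw [sub_add_cancel] at h1
    linarith
  -- a basic neighbourhood inside it
  obtain ⟨δ, hδ, hδ'⟩ : ∃ δ : ℝ, 0 < δ ∧ ∀ z : D.Z, ‖(z : L1)‖ < δ → ‖D.mz z‖ < δ → p z < 1 := by
    obtain ⟨V, hVo, hV⟩ := isOpen_induced_iff.1 hball
    have h0 : ((0 : L1), (0 : L1)) ∈ V := by
      have h1 : (0 : D.Z) ∈ D.J ⁻¹' V := by
        rw [hV]; show p 0 < 1; rw [hp0]; norm_num
      have h2 : D.J 0 = (0, 0) := by
        refine Prod.ext rfl ?_
        refine D.mz_eq ?_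
        rw [map_zero]
        have := D.hsmul 0 0
        rw [zero_smul, zero_smul] at this
        exact this.symm
      rwa [mem_preimage, h2] at h1
    obtain ⟨δ, hδ, hball⟩ := Metric.isOpen_iff.1 hVo _ h0
    refine ⟨δ, hδ, fun z hz1 hz2 => ?_⟩
    have h3 : z ∈ D.J ⁻¹' V := by
      refine hball ?_
      rw [Metric.mem_ball, Prod.dist_eq]
      refine max_lt ?_ ?_
      · rw [dist_zero_right]; exact hz1
      · rw [dist_zero_right]; exact hz2
    rw [hV] at h3
    exact h3
  -- the set `‖mz z‖ < 1` is a neighbourhood of `0`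
  have hopen : @IsOpen D.Z D.τ {z | ‖D.mz z‖ < 1} := by
    let _ := D.τ
    exact isOpen_lt (D.continuous_mz.norm) continuous_const
  obtain ⟨ε, hε, hε'⟩ := (htop _).1 hopen 0 (by
    show ‖D.mz 0‖ < 1
    have : D.mz 0 = 0 := by
      refine D.mz_eq ?_
      rw [map_zero]
      have := D.hsmul 0 0
      rw [zero_smul, zero_smul] at this
      exact this.symm
    rw [this, norm_zero]; norm_num)
  -- bound for unit vectors
  have h1 : ∀ i, p (ez i) ≤ 2 / δ := by
    intro i
    have h2 : p ((δ / 2) • ez i) < 1 := by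
      refine hδ' _ ?_ ?_
      · rw [Submodule.coe_smul, norm_smul, norm_ez, Real.norm_eq_abs, abs_of_pos (by positivity)]
        linarith
      · rw [D.mz_smul, mz_ez, smul_zero, norm_zero]; exact hδ
    rw [hsmul, abs_of_pos (by positivity)] at h2
    rw [le_div_iff₀ hδ]
    linarith
  have h2 : ∀ N : ℕ, p (∑ i ∈ Finset.range N, ez i) ≤ N * (2 / δ) := by
    intro N
    induction N with
    | zero => simp [hp0]
    | succ N ih =>
      rw [Finset.sum_range_succ]
      refine (hadd _ _).trans ?_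
      push_cast
      linarith [h1 N]
  have h3 : ∀ k : ℕ, p (az (NN k)) ≤ 2 / δ := by
    intro k
    unfold az
    have hN : (0 : ℝ) < NN k := by exact_mod_cast NN_pos k
    rw [hsmul, abs_of_pos (by positivity)]
    calc ((NN k : ℝ))⁻¹ * p (∑ i ∈ Finset.range (NN k), ez i)
        ≤ ((NN k : ℝ))⁻¹ * (NN k * (2 / δ)) := by
          have := h2 (NN k)
          gcongr
      _ = 2 / δ := by field_simp
  have h4 : ∀ k : ℕ, ‖D.mz (az (NN k))‖ ≤ 4 / (ε * δ) := by
    intro k
    have h5 : p ((ε * δ / 4) • az (NN k) - 0) < ε := by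
      rw [sub_zero, hsmul, abs_of_pos (by positivity)]
      calc ε * δ / 4 * p (az (NN k)) ≤ ε * δ / 4 * (2 / δ) := by
            have := h3 k
            gcongr
        _ = ε / 2 := by field_simp; ring
        _ < ε := by linarith
    have h6 : ‖D.mz ((ε * δ / 4) • az (NN k))‖ < 1 := hε' _ h5
    rw [D.mz_smul, norm_smul, Real.norm_eq_abs, abs_of_pos (by positivity)] at h6
    rw [le_div_iff₀ (by positivity)]
    linarith
  have hlog : 0 < Real.log 2 := Real.log_pos (by norm_num)
  obtain ⟨k, hk⟩ := pow_unbounded_of_one_lt (4 / (ε * δ) / Real.log 2) (show (1 : ℝ) < 2 by norm_num)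
  rw [div_lt_iff₀ hlog] at hk
  linarith [h4 k, norm_mz_az k]

theorem not_normable (τ : TopologicalSpace D.Z) (h : IsPolishVectorTopology D.Z τ) :
    ¬ IsNormable τ := by
  have h1 := QData.topology_unique h D.isPolishVectorTopology
  have h2 := QData.topology_unique D.isPolishVectorTopology h
  rw [le_antisymm h1 h2]
  exact not_normable_tau

end Pool.Agent.Lib.MP_8983f3_an
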