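import Pool.Agent.Lib.MP_8983f3_an.L1
import Pool.Agent.Lib.MP_8983f3_an.General

set_option autoImplicit false

/-!
# Ribe's quasi-linear functional
-/

namespace Pool.Agent.Lib.MP_8983f3_an

open scoped Topology ENNReal
open Set Filter

/-- `f t = t log |t|`. -/
noncomputable def rf (t : ℝ) : ℝ := t * Real.log t

theorem continuous_rf : Continuous rf := Real.continuous_mul_log

theorem rf_zero : rf 0 = 0 := by simp [rf]

theorem rf_one : rf 1 = 0 := by simp [rf]

theorem rf_neg (t : ℝ) : rf (-t) = - rf t := by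
  unfold rf; rw [Real.log_neg_eq_log]; ring

theorem rf_mul (c t : ℝ) : rf (c * t) = c * rf t + t * rf c := by
  rcases eq_or_ne c 0 with hc | hc
  · subst hc; simp [rf]
  rcases eq_or_ne t 0 with ht | ht
  · subst ht; simp [rf]
  unfold rf
  rw [Real.log_mul hc ht]; ring

theorem abs_rf_le_one {t : ℝ} (ht : |t| ≤ 1) : |rf t| ≤ 1 := by
  have key : ∀ s : ℝ, 0 ≤ s → s ≤ 1 → |rf s| ≤ 1 := by
    intro s hs0 hs1
    rcases hs0.eq_or_lt with h | h
    · rw [← h, rf_zero]; simp
    · have := Real.abs_log_mul_self_lt s h hs1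
      unfold rf
      rw [mul_comm]
      exact this.le
  rcases le_total 0 t with h | h
  · rw [abs_of_nonneg h] at ht
    exact key t h ht
  · rw [abs_of_nonpos h] at ht
    have := key (-t) (by linarith) ht
    rwa [rf_neg, abs_neg] at this

theorem rf_add_pos {s t : ℝ} (hs : 0 ≤ s) (ht : 0 ≤ t) :
    |rf (s + t) - rf s - rf t| ≤ s + t := by
  rcases hs.eq_or_lt with hs0 | hs0
  · subst hs0
    rw [rf_zero]
    simp only [zero_add, sub_zero, sub_self, abs_zero]
    exact ht
  rcases ht.eq_or_lt with ht0 | ht0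
  · subst ht0
    rw [rf_zero]
    simp only [add_zero, sub_self, abs_zero]
    exact hs
  have hst : 0 < s + t := by linarith
  have key : ∀ a b : ℝ, 0 < a → 0 < b → 0 ≤ a * (Real.log (a + b) - Real.log a) ∧
      a * (Real.log (a + b) - Real.log a) ≤ b := by
    intro a b ha hb
    constructor
    · refine mul_nonneg ha.le (sub_nonneg.2 (Real.log_le_log ha (by linarith)))
    · rw [← Real.log_div (by linarith) ha.ne']
      have h1 := Real.log_le_sub_one_of_pos (show 0 < (a + b) / a by positivity)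
      have h2 : (a + b) / a - 1 = b / a := by field_simp; ring
      rw [h2] at h1
      calc a * Real.log ((a + b) / a) ≤ a * (b / a) := by gcongr
        _ = b := by field_simp
  have h1 := key s t hs0 ht0
  have h2 := key t s ht0 hs0
  rw [add_comm t s] at h2
  have h3 : rf (s + t) - rf s - rf t = s * (Real.log (s + t) - Real.log s)
      + t * (Real.log (s + t) - Real.log t) := by
    unfold rf; ring
  rw [h3, abs_of_nonneg (by linarith [h1.1, h2.1])]
  linarith [h1.2, h2.2]

/-- quasi-additivity of `t log |t|`. -/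
theorem rf_add (s t : ℝ) : |rf (s + t) - rf s - rf t| ≤ |s| + |t| := by
  -- reduce to `0 ≤ s`
  have key : ∀ s t : ℝ, 0 ≤ s → |rf (s + t) - rf s - rf t| ≤ |s| + |t| := by
    intro s t hs
    rcases le_total 0 t with ht | ht
    · rw [abs_of_nonneg hs, abs_of_nonneg ht]
      exact rf_add_pos hs ht
    · -- `t ≤ 0 ≤ s`
      rw [abs_of_nonneg hs, abs_of_nonpos ht]
      have hrt : rf t = - rf (-t) := by rw [rf_neg, neg_neg]
      rcases le_total (-t) s with h | h
      · have h1 := rf_add_pos (s := s + t) (t := -t) (by linarith) (by linarith)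
        rw [show s + t + -t = s by ring] at h1
        rw [hrt]
        rw [show rf (s + t) - rf s - - rf (-t) = -(rf s - rf (s + t) - rf (-t)) by ring, abs_neg]
        linarith
      · have h1 := rf_add_pos (s := -t - s) (t := s) (by linarith) hs
        rw [show -t - s + s = -t by ring] at h1
        have h2 : rf (s + t) = - rf (-t - s) := by
          rw [← rf_neg]; congr 1; ring
        rw [hrt, h2]
        rw [show -rf (-t - s) - rf s - - rf (-t) = rf (-t) - rf (-t - s) - rf s by ring]
        linarith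
  rcases le_total 0 s with hs | hs
  · exact key s t hs
  · have h1 := key (-s) (-t) (by linarith)
    rw [show -s + -t = -(s + t) by ring, rf_neg, rf_neg, rf_neg, abs_neg, abs_neg] at h1
    rw [show rf (s + t) - rf s - rf t = -(-rf (s + t) - -rf s - -rf t) by ring, abs_neg]
    exact h1

/-- The truncated Ribe functional. -/
noncomputable def Om (N : ℕ) (x : L1) : ℝ :=
  ∑ n ∈ Finset.range N, rf (x n) - rf (∑ n ∈ Finset.range N, x n)

theorem continuous_Om (N : ℕ) : Continuous (Om N) := by
  unfold Om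
  refine Continuous.sub ?_ ?_
  · exact continuous_finsetSum _ (fun n _ => continuous_rf.comp (continuous_coord n))
  · exact continuous_rf.comp (continuous_finsetSum _ (fun n _ => continuous_coord n))

theorem Om_add (N : ℕ) (x y : L1) : |Om N (x + y) - Om N x - Om N y| ≤ 2 * (‖x‖ + ‖y‖) := by
  unfold Om
  have h1 : ∀ n, (x + y) n = x n + y n := fun n => rfl
  simp only [h1, Finset.sum_add_distrib]
  set a := ∑ n ∈ Finset.range N, x n
  set b := ∑ n ∈ Finset.range N, y n
  have h2 : ∑ n ∈ Finset.range N, rf (x n + y n) - rf (a + b) -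
      (∑ n ∈ Finset.range N, rf (x n) - rf a) - (∑ n ∈ Finset.range N, rf (y n) - rf b)
      = ∑ n ∈ Finset.range N, (rf (x n + y n) - rf (x n) - rf (y n))
        - (rf (a + b) - rf a - rf b) := by
    rw [Finset.sum_sub_distrib, Finset.sum_sub_distrib]; ring
  rw [h2]
  refine (abs_sub _ _).trans ?_
  have h3 : |∑ n ∈ Finset.range N, (rf (x n + y n) - rf (x n) - rf (y n))| ≤ ‖x‖ + ‖y‖ := by
    refine (Finset.abs_sum_le_sum_abs _ _).trans ?_
    refine (Finset.sum_le_sum (fun n _ => rf_add (x n) (y n))).trans ?_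
    rw [Finset.sum_add_distrib]
    exact add_le_add (sum_abs_le_norm x _) (sum_abs_le_norm y _)
  have h4 : |rf (a + b) - rf a - rf b| ≤ ‖x‖ + ‖y‖ :=
    (rf_add a b).trans (add_le_add (abs_sum_le_norm x _) (abs_sum_le_norm y _))
  linarith

theorem Om_smul (N : ℕ) (c : ℝ) (x : L1) : Om N (c • x) = c * Om N x := by
  unfold Om
  have h1 : ∀ n, (c • x) n = c * x n := fun n => rfl
  simp only [h1, rf_mul, ← Finset.mul_sum, Finset.sum_add_distrib, ← Finset.sum_mul]
  ring

theorem Om_bound (N : ℕ) (x : L1) : |Om N x| ≤ (N + 1) * ‖x‖ := by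
  rcases eq_or_ne x 0 with hx | hx
  · subst hx
    have : Om N 0 = 0 := by
      have := Om_smul N 0 0
      rw [zero_smul, zero_mul] at this
      exact this
    rw [this]; simp
  have hx0 : 0 < ‖x‖ := norm_pos_iff.2 hx
  set u : L1 := ‖x‖⁻¹ • x with hu
  have hxu : x = ‖x‖ • u := by
    rw [hu, smul_smul, mul_inv_cancel₀ hx0.ne', one_smul]
  have hu1 : ‖u‖ = 1 := by
    rw [hu, norm_smul, norm_inv, norm_norm, inv_mul_cancel₀ hx0.ne']
  have h1 : |Om N u| ≤ N + 1 := by
    unfold Om
    refine (abs_sub _ _).trans ?_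
    have h2 : |∑ n ∈ Finset.range N, rf (u n)| ≤ N := by
      refine (Finset.abs_sum_le_sum_abs _ _).trans ?_
      refine (Finset.sum_le_card_nsmul _ _ 1 (fun n _ => abs_rf_le_one ?_)).trans ?_
      · rw [← hu1]; exact abs_coord_le_norm u n
      · simp
    have h3 : |rf (∑ n ∈ Finset.range N, u n)| ≤ 1 := by
      apply abs_rf_le_one
      rw [← hu1]; exact abs_sum_le_norm u _
    linarith
  calc |Om N x| = |Om N (‖x‖ • u)| := by rw [← hxu]
    _ = ‖x‖ * |Om N u| := by rw [Om_smul, abs_mul, abs_norm]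
    _ ≤ ‖x‖ * (N + 1) := by gcongr
    _ = (N + 1) * ‖x‖ := by ring

/-- The block sizes. -/
def NN (k : ℕ) : ℕ := 2 ^ (4 ^ k)

theorem NN_pos (k : ℕ) : 0 < NN k := by unfold NN; positivity

/-- weights -/
noncomputable def wt (k : ℕ) : ℝ := ((NN k : ℝ) + 1)⁻¹

theorem wt_pos (k : ℕ) : 0 < wt k := by unfold wt; positivity

theorem wt_le_one (k : ℕ) : wt k ≤ 1 := by
  unfold wt
  apply inv_le_one_of_one_le₀
  have : (0 : ℝ) ≤ NN k := Nat.cast_nonneg _
  linarith

theorem summable_aux (C : ℝ) : Summable fun k : ℕ => (1 / 2 : ℝ) ^ k * C :=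
  (summable_geometric_of_lt_one (by norm_num) (by norm_num)).mul_right _

theorem cbound (x y : L1) (k : ℕ) :
    |(1 / 2 : ℝ) ^ k * (Om (NN k) (x + y) - Om (NN k) x - Om (NN k) y)| ≤
      (1 / 2 : ℝ) ^ k * (2 * (‖x‖ + ‖y‖)) := by
  rw [abs_mul, abs_of_pos (by positivity : (0 : ℝ) < (1 / 2) ^ k)]
  gcongr
  exact Om_add _ _ _

/-- The cocycle. -/
noncomputable def cc (p : L1 × L1) : L1 :=
  mk1 (fun k => (1 / 2 : ℝ) ^ k * (Om (NN k) (p.1 + p.2) - Om (NN k) p.1 - Om (NN k) p.2))
    (Summable.of_nonneg_of_le (fun _ => abs_nonneg _) (fun k => cbound p.1 p.2 k) (summable_aux _))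

theorem continuous_cc : Continuous cc := by
  refine continuous_lp_of_coord cc (fun p => 2 * (‖p.1‖ + ‖p.2‖)) (by fun_prop) (fun k => ?_)
    (fun p k => cbound p.1 p.2 k)
  have h1 := continuous_Om (NN k)
  show Continuous fun p : L1 × L1 =>
    (1 / 2 : ℝ) ^ k * (Om (NN k) (p.1 + p.2) - Om (NN k) p.1 - Om (NN k) p.2)
  fun_prop

theorem pbound (x : L1) (k : ℕ) :
    |wt k * ((1 / 2 : ℝ) ^ k * Om (NN k) x)| ≤ (1 / 2 : ℝ) ^ k * ‖x‖ := by
  rw [abs_mul, abs_mul, abs_of_pos (by positivity : (0 : ℝ) < (1 / 2) ^ k), abs_of_pos (wt_pos k)]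
  have h1 := Om_bound (NN k) x
  have h2 : wt k * |Om (NN k) x| ≤ ‖x‖ := by
    calc wt k * |Om (NN k) x| ≤ wt k * ((NN k + 1) * ‖x‖) := by
          have := (wt_pos k).le
          gcongr
      _ = ‖x‖ := by
          unfold wt
          have : (NN k : ℝ) + 1 ≠ 0 := by positivity
          field_simp
  calc wt k * ((1 / 2 : ℝ) ^ k * |Om (NN k) x|) = (1 / 2 : ℝ) ^ k * (wt k * |Om (NN k) x|) := by ring
    _ ≤ _ := by gcongr

/-- The quasi-linear map. -/
noncomputable def ph (x : L1) : L1 :=
  mk1 (fun k => wt k * ((1 / 2 : ℝ) ^ k * Om (NN k) x))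
    (Summable.of_nonneg_of_le (fun _ => abs_nonneg _) (fun k => pbound x k) (summable_aux _))

theorem continuous_ph : Continuous ph := by
  refine continuous_lp_of_coord ph (fun x => ‖x‖) continuous_norm (fun k => ?_) pbound
  have h1 := continuous_Om (NN k)
  show Continuous fun x : L1 => wt k * ((1 / 2 : ℝ) ^ k * Om (NN k) x)
  fun_prop

theorem wt_bound (m : L1) (k : ℕ) : |wt k * m k| ≤ |m k| := by
  rw [abs_mul, abs_of_pos (wt_pos k)]
  have := wt_le_one k
  have := abs_nonneg (m k)
  nlinarith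

/-- The diagonal embedding. -/
noncomputable def io : L1 →L[ℝ] L1 :=
  LinearMap.mkContinuous
    { toFun := fun m => mk1 (fun k => wt k * m k)
        (Summable.of_nonneg_of_le (fun _ => abs_nonneg _) (wt_bound m) (summable_abs m))
      map_add' := fun x y => by
        ext k
        show wt k * (x k + y k) = wt k * x k + wt k * y k
        ring
      map_smul' := fun c x => by
        ext k
        show wt k * (c * x k) = c * (wt k * x k)
        ring } 1 (fun m => by
        rw [one_mul, norm_eq, norm_eq]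
        exact (Summable.of_nonneg_of_le (fun _ => abs_nonneg _) (wt_bound m)
          (summable_abs m)).tsum_le_tsum (wt_bound m) (summable_abs m))

theorem io_apply (m : L1) (k : ℕ) : io m k = wt k * m k := rfl

/-- The data of the counterexample. -/
noncomputable def D : QData L1 L1 L1 where
  φ := ph
  ι := io
  c := cc
  hφ := continuous_ph
  hc := continuous_cc
  hι := by
    intro x y h
    ext k
    have h1 : io x k = io y k := by rw [h]
    rw [io_apply, io_apply] at h1
    exact mul_left_cancel₀ (wt_pos k).ne' h1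
  hι1 m := by
    have := io.le_opNorm m
    refine this.trans ?_
    have h1 : ‖io‖ ≤ 1 := LinearMap.mkContinuous_norm_le _ (by norm_num) _
    nlinarith [norm_nonneg m, norm_nonneg io]
  hadd x y := by
    ext k
    show wt k * ((1 / 2 : ℝ) ^ k * Om (NN k) (x + y)) =
      wt k * ((1 / 2 : ℝ) ^ k * Om (NN k) x) + wt k * ((1 / 2 : ℝ) ^ k * Om (NN k) y) +
      wt k * ((1 / 2 : ℝ) ^ k * (Om (NN k) (x + y) - Om (NN k) x - Om (NN k) y))
    ring
  hsmul t x := by
    ext k
    show wt k * ((1 / 2 : ℝ) ^ k * Om (NN k) (t • x)) = t * (wt k * ((1 / 2 : ℝ) ^ k * Om (NN k) x))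
    rw [Om_smul]; ring

/-! ### the test vectors -/

/-- unit vectors -/
noncomputable def ee (i : ℕ) : L1 := lp.single 1 i (1 : ℝ)

theorem ee_apply (i n : ℕ) : ee i n = if n = i then 1 else 0 := by
  unfold ee
  rw [lp.single_apply]
  by_cases h : n = i
  · subst h; simp
  · simp [h]

theorem Om_ee (N i : ℕ) : Om N (ee i) = 0 := by
  unfold Om
  simp only [ee_apply]
  have h1 : ∀ n, rf (if n = i then 1 else 0) = 0 := by
    intro n; split_ifs
    · exact rf_one
    · exact rf_zero
  simp only [h1, Finset.sum_const_zero, zero_sub, neg_eq_zero]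
  rw [Finset.sum_ite_eq']
  split_ifs
  · exact rf_one
  · exact rf_zero

theorem ph_ee (i : ℕ) : ph (ee i) = 0 := by
  ext k
  show wt k * ((1 / 2 : ℝ) ^ k * Om (NN k) (ee i)) = 0
  rw [Om_ee]; ring

/-- averages -/
noncomputable def avg (N : ℕ) : L1 := (N : ℝ)⁻¹ • ∑ i ∈ Finset.range N, ee i

theorem avg_apply {N n : ℕ} (hn : n < N) : avg N n = (N : ℝ)⁻¹ := by
  unfold avg
  rw [lp.coeFn_smul, Pi.smul_apply, lp.coeFn_sum, Finset.sum_apply, smul_eq_mul]
  simp only [ee_apply]
  rw [Finset.sum_ite_eq, if_pos (Finset.mem_range.2 hn), mul_one]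

theorem Om_avg {N : ℕ} (hN : 0 < N) : Om N (avg N) = - Real.log N := by
  have hN' : (N : ℝ) ≠ 0 := by positivity
  unfold Om
  have h1 : ∀ n ∈ Finset.range N, avg N n = (N : ℝ)⁻¹ := fun n hn =>
    avg_apply (Finset.mem_range.1 hn)
  have h2 : ∑ n ∈ Finset.range N, rf (avg N n) = N * rf ((N : ℝ)⁻¹) := by
    rw [Finset.sum_congr rfl (fun n hn => by rw [h1 n hn])]
    simp
  rw [h2, Finset.sum_congr rfl h1]
  simp only [Finset.sum_const, Finset.card_range, nsmul_eq_mul]
  rw [mul_inv_cancel₀ hN', rf_one]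
  unfold rf
  rw [Real.log_inv]
  field_simp
  ring

theorem log_NN (k : ℕ) : Real.log (NN k) = 4 ^ k * Real.log 2 := by
  unfold NN
  push_cast
  rw [Real.log_pow]
  push_cast
  ring

end Pool.Agent.Lib.MP_8983f3_an
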